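import Pool.Agent.H7.HX.SShr

/-!
Part sCOL of project HX, scheme side: the column sums.
-/

set_option autoImplicit false
open Classical Finset

namespace Pool.Agent.H7.HX.Col

open Pool.Agent.H39.HW (sm Av ln blk lab)
open Pool.Agent.H65.HX Pool.Agent.H65.HX.Sc
open Pool.Agent.H7.HX.Shr (basics)

theorem t_COL (hCRA : S_CRA) (hCLB : S_CLB) (hCRB : S_CRB) (hCLA : S_CLA) (hCTO : S_CTO)
    (hTTB : S_TTB) (hLAM : S_LAM) (hCLD : S_CLD) (hZON : S_ZON) : S_COL := by
  intro x hx τ β hβ
  obtain ⟨hμ, hθ, hL, hLn, hη, hθ', hw, hv, hh⟩ := basics x hx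
  have hη0 := hx.n1
  have hL1 : (1000 : ℝ) ≤ x.L := by
    have h1 : (x.L : ℝ) = 8 * x.h ^ 2 + 4 * x.h := by exact_mod_cast hx.L1
    rw [h1]
    nlinarith
  have hL2 : 1 / (100 * (x.L : ℝ)) ≤ 1 / 100000 :=
    div_le_div_of_nonneg_left zero_le_one (by norm_num) (by linarith)
  have hθμ : 0 < x.θ * x.μ := by positivity
  -- totals
  have hT : ∀ a ∈ x.R, 49999 / 100000 * x.θ ≤ x.Tt τ a := by
    intro a ha
    have h1 := (hTTB x hx a ha τ).1
    have h2 : (1 / 2 - 1 / 100000) * x.θ ≤ (1 / 2 - 1 / (100 * (x.L : ℝ))) * x.θ :=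
      mul_le_mul_of_nonneg_right (by linarith) hθ.le
    linarith
  set κ : ℝ := 1 / (49999 / 100000 * x.θ) with hκ
  have hκ0 : 0 < κ := by positivity
  have hfin : ∀ S : ℝ, S ≤ (479 / 1000) * x.θ → κ * S ≤ 24 / 25 := by
    intro S hS
    rw [hκ, one_div, inv_mul_le_iff₀ (by positivity)]
    linarith
  have hdem : ∀ a ∈ x.R, β ∈ x.cls a → 0 ≤ x.dem a β := by
    intro a ha hb
    have h1 := ((hCLD x hx a ha).2.2.2.2.2.1 β hb).1
    have h2 : 0 ≤ 7 / 50 * x.θ * x.μ := by positivity
    linarith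
  have hgA : ∀ a ∈ x.R, 0 ≤ x.gA (x.lam a) a β ∧ x.gA (x.lam a) a β ≤ 1 := by
    intro a ha
    unfold Prm.gA
    split_ifs with i1 i2 i3 i4 i5 i6
    · norm_num
    · norm_num
    · norm_num
    · norm_num
    · have := hLAM x hx a ha i1
      exact ⟨this.1, this.2.1⟩
    · norm_num
    · norm_num
  have hfr : ∀ a ∈ x.R, 0 ≤ x.fr τ a β ∧ x.fr τ a β ≤ 1 := by
    intro a ha
    have h1 := hgA a ha
    unfold Prm.fr
    split_ifs
    · exact h1
    · constructor <;> linarith [h1.1, h1.2]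
  have hu0 : ∀ a, β ∉ x.cls a → x.u τ a β = 0 := by
    intro a ha
    unfold Prm.u
    rw [if_neg ha]
  have hu1 : ∀ a ∈ x.R, β ∈ x.cls a → x.u τ a β ≤ κ * (x.fr τ a β * x.dem a β) := by
    intro a ha hb
    unfold Prm.u
    rw [if_pos hb]
    have h1 : 0 ≤ x.fr τ a β * x.dem a β := mul_nonneg (hfr a ha).1 (hdem a ha hb)
    have h2 : 0 < 49999 / 100000 * x.θ := by positivity
    rw [hκ, one_div_mul_eq_div]
    exact div_le_div_of_nonneg_left h1 h2 (hT a ha)
  by_cases hmid : β ∈ x.mid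
  · have hne : ∀ a ∈ x.R, β ∈ x.cls a → a ≠ β := by
      rintro a ha hb rfl
      exact (hCLD x hx a ha).2.2.1 hb
    have hpt : ∀ a ∈ x.R, x.u τ a β ≤
        κ * (if a < β ∧ β ∈ x.cls a then x.fr τ a β * x.dem a β else 0) +
        κ * (if β < a ∧ β ∈ x.cls a then x.fr τ a β * x.dem a β else 0) := by
      intro a ha
      by_cases hb : β ∈ x.cls a
      · have h1 := hu1 a ha hb
        rcases lt_or_gt_of_ne (hne a ha hb) with h | h
        · rw [if_pos ⟨h, hb⟩, if_neg (fun h' => by omega), mul_zero, add_zero]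
          exact h1
        · rw [if_neg (fun h' => by omega), if_pos ⟨h, hb⟩, mul_zero, zero_add]
          exact h1
      · rw [hu0 a hb, if_neg (fun h => hb h.2), if_neg (fun h => hb h.2)]
        simp
    have hsum : ∑ a ∈ x.R, x.u τ a β ≤
        κ * (∑ a ∈ x.R.filter (fun a => a < β ∧ β ∈ x.cls a), x.fr τ a β * x.dem a β +
          ∑ a ∈ x.R.filter (fun a => β < a ∧ β ∈ x.cls a), x.fr τ a β * x.dem a β) := by
      refine (Finset.sum_le_sum hpt).trans (le_of_eq ?_)
      rw [Finset.sum_add_distrib, ← Finset.mul_sum, ← Finset.mul_sum, Finset.sum_filter,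
        Finset.sum_filter]
      ring
    refine hsum.trans (hfin _ ?_)
    -- positions
    have hb1 : x.b0 ≤ β ∧ β < x.b1 := by
      have := hmid
      unfold Prm.mid at this
      exact mem_Ico.1 this
    obtain ⟨z1, -, z3, z4, -, -⟩ := hZON x hx
    have z1' := abs_le.mp z1
    have z3' := abs_le.mp z3
    have z4' := abs_le.mp z4
    have k1 := abs_le.mp hx.k1
    have m1 := abs_le.mp hx.m1
    have hb01 : (x.b1 : ℝ) = x.b0 + x.M := by
      have : x.b1 = x.b0 + x.M := rfl
      exact_mod_cast this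
    have hβ0 : (x.b0 : ℝ) ≤ β := by exact_mod_cast hb1.1
    have hβ1 : (β : ℝ) ≤ x.b0 + x.M := by
      rw [← hb01]
      exact_mod_cast hb1.2.le
    have hβ0' := mul_le_mul_of_nonneg_right hβ0 hμ.le
    have hβ1' := mul_le_mul_of_nonneg_right hβ1 hμ.le
    rw [add_mul] at hβ1'
    have e1 : ((β : ℝ) - x.B / 2) * x.μ = β * x.μ - (x.B : ℝ) / 2 * x.μ := by ring
    have e2 : ((x.B : ℝ) / 2 - β) * x.μ = (x.B : ℝ) / 2 * x.μ - β * x.μ := by ring
    set y1 : ℝ := max (((β : ℝ) - x.B / 2) * x.μ) 0 with hy1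
    set y2 : ℝ := max (((x.B : ℝ) / 2 - β) * x.μ) 0 with hy2
    have hy1a : y1 ≤ 1 / 2 + 10 * x.η := by
      rw [hy1, e1]
      refine max_le ?_ ?_ <;> linarith
    have hy2a : y2 ≤ 1 / 2 + 10 * x.η := by
      rw [hy2, e2]
      refine max_le ?_ ?_ <;> linarith
    have c1 : x.K + x.g + 2 ≤ β → y2 ≤ 10 * x.η := by
      intro h
      have h1 : (x.K : ℝ) + x.g ≤ β := by exact_mod_cast (by omega : x.K + x.g ≤ β)
      have h2 := mul_le_mul_of_nonneg_right h1 hμ.le
      rw [add_mul] at h2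
      rw [hy2, e2]
      refine max_le ?_ ?_ <;> linarith
    have c2 : β + x.K + x.g + 2 ≤ x.B → y1 ≤ 10 * x.η := by
      intro h
      have h1 : (β : ℝ) + x.K + x.g ≤ x.B := by exact_mod_cast (by omega : β + x.K + x.g ≤ x.B)
      have h2 := mul_le_mul_of_nonneg_right h1 hμ.le
      rw [add_mul, add_mul] at h2
      rw [hy1, e1]
      refine max_le ?_ ?_ <;> linarith
    have hA0 : 0 ≤ y1 := le_max_right _ _
    have hA1 : 0 ≤ y2 := le_max_right _ _
    cases τ with
    | true =>
      have h1 := hCRA x hx β hmid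
      have h2 := hCLA x hx β hmid
      have h3 : ((if x.K + x.g + 2 ≤ β then 13 / 40 + 3 / 10 * y1 else 0) + 1 / 1000) +
          ((if β + x.K + x.g + 2 ≤ x.B then 3 / 40 + 3 / 10 * y2 else 0) + 1 / 1000) ≤
          (479 / 1000 : ℝ) := by
        by_cases g1 : x.K + x.g + 2 ≤ β
        · have := c1 g1
          by_cases g2 : β + x.K + x.g + 2 ≤ x.B
          · have := c2 g2
            rw [if_pos g1, if_pos g2]
            linarith
          · rw [if_pos g1, if_neg g2]
            linarith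
        · by_cases g2 : β + x.K + x.g + 2 ≤ x.B
          · have := c2 g2
            rw [if_neg g1, if_pos g2]
            linarith
          · rw [if_neg g1, if_neg g2]
            norm_num
      have h4 := mul_le_mul_of_nonneg_right h3 hθ.le
      rw [add_mul] at h4
      exact (add_le_add h1 h2).trans h4
    | false =>
      have h1 := hCRB x hx β hmid
      have h2 := hCLB x hx β hmid
      have h3 : ((if x.K + x.g + 2 ≤ β then 3 / 40 + 3 / 10 * y1 else 0) + 1 / 1000) +
          ((if β + x.K + x.g + 2 ≤ x.B then 13 / 40 + 3 / 10 * y2 else 0) + 1 / 1000) ≤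
          (479 / 1000 : ℝ) := by
        by_cases g1 : x.K + x.g + 2 ≤ β
        · have := c1 g1
          by_cases g2 : β + x.K + x.g + 2 ≤ x.B
          · have := c2 g2
            rw [if_pos g1, if_pos g2]
            linarith
          · rw [if_pos g1, if_neg g2]
            linarith
        · by_cases g2 : β + x.K + x.g + 2 ≤ x.B
          · have := c2 g2
            rw [if_neg g1, if_pos g2]
            linarith
          · rw [if_neg g1, if_neg g2]
            norm_num
      have h4 := mul_le_mul_of_nonneg_right h3 hθ.le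
      rw [add_mul] at h4
      exact (add_le_add h1 h2).trans h4
  · have h1 := hCTO x hx β hβ hmid
    have hpt : ∀ a ∈ x.R, x.u τ a β ≤ κ * (if β ∈ x.cls a then x.dem a β else 0) := by
      intro a ha
      by_cases hb : β ∈ x.cls a
      · rw [if_pos hb]
        refine (hu1 a ha hb).trans (mul_le_mul_of_nonneg_left ?_ hκ0.le)
        have h2 := mul_le_mul_of_nonneg_right (hfr a ha).2 (hdem a ha hb)
        linarith
      · rw [hu0 a hb, if_neg hb, mul_zero]
    have hsum : ∑ a ∈ x.R, x.u τ a β ≤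
        κ * ∑ a ∈ x.R.filter (fun a => β ∈ x.cls a), x.dem a β := by
      refine (Finset.sum_le_sum hpt).trans (le_of_eq ?_)
      rw [← Finset.mul_sum, Finset.sum_filter]
    refine hsum.trans (hfin _ (h1.trans ?_))
    exact mul_le_mul_of_nonneg_right (by norm_num) hθ.le

end Pool.Agent.H7.HX.Col
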