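import Pool.Agent.H65.HX.SStm
import Pool.Agent.H60.HW.SShr

/-!
Part sSHR of project HX, scheme side: the shares of the parts of the same type in a row are
almost equal.
-/

set_option autoImplicit false
open Classical Finset

namespace Pool.Agent.H7.HX.Shr

open Pool.Agent.H39.HW (sm Av ln blk lab)
open Pool.Agent.H65.HX Pool.Agent.H65.HX.Sc
open Pool.Agent.H60.HW.Shr (abel up_Ico down_Ico sum_mod)

theorem basics (x : Prm) (hx : Par x) : 0 < x.μ ∧ 0 < x.θ ∧ (1 : ℝ) ≤ x.L ∧ 1 ≤ x.L ∧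
    x.η ≤ 1 / 10 ^ 10 ∧ x.θ ≤ 1 / 10 ^ 10 ∧ x.μ ≤ (x.w2 : ℝ) / x.D ∧
    ((x.v : ℝ) + x.M) / x.D ≤ 2 * x.μ ∧ (1000 : ℝ) ≤ x.h := by
  have h0 := hx.m0
  have ht := hx.t0
  have hh : (1000 : ℝ) ≤ x.h := by exact_mod_cast hx.h1
  have hLn : 1 ≤ x.L := by
    have h6 := hx.L1
    have h7 := hx.h1
    rw [h6]
    nlinarith
  have hL : (1 : ℝ) ≤ (x.L : ℝ) := by exact_mod_cast hLn
  have hn0 : 0 ≤ x.n0 * x.μ := by positivity
  have hn0' : x.n0 * x.μ ≤ 1 / 10 ^ 5 := by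
    have h1 := hx.V1
    have h2 : (1 : ℝ) ≤ x.L * x.h := by nlinarith
    have h3 : 10 ^ 12 * 1 * (x.n0 * x.μ) ≤ 10 ^ 12 * ((x.L : ℝ) * x.h) * (x.n0 * x.μ) :=
      mul_le_mul_of_nonneg_right (mul_le_mul_of_nonneg_left h2 (by norm_num)) hn0
    have h4 : 10 ^ 12 * ((x.L : ℝ) * x.h) * (x.n0 * x.μ) =
      10 ^ 12 * (x.L : ℝ) * x.h * (x.n0 * x.μ) := by ring
    rw [h4] at h3
    linarith
  have hη : x.η ≤ 1 / 10 ^ 10 := by
    have h1 := hx.V2
    linarith
  have hη0 := hx.n1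
  have hθ : x.θ ≤ 1 / 10 ^ 10 := hx.th.trans hη
  have hD : (0 : ℝ) < x.D := by exact_mod_cast hx.D1
  have hθμ : 0 < x.θ * x.μ := by positivity
  have hηθμ : x.η * x.θ * x.μ ≤ 1 / 10 ^ 10 * (x.θ * x.μ) := by
    rw [mul_assoc]
    exact mul_le_mul_of_nonneg_right hη hθμ.le
  have hηθμ0 : 0 ≤ x.η * x.θ * x.μ := by positivity
  have hθμ1 : x.θ * x.μ ≤ 1 / 10 ^ 10 * x.μ := mul_le_mul_of_nonneg_right hθ h0.le
  refine ⟨h0, ht, hL, hLn, hη, hθ, ?_, ?_, hh⟩
  · have h1 := (abs_le.mp hx.s2).1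
    have h2 : 3 / 20 * x.θ * x.μ = 3 / 20 * (x.θ * x.μ) := by ring
    rw [h2] at h1
    linarith
  · have h1 := (abs_le.mp hx.s3).2
    have h2 : 3 / 5 * x.θ * x.μ = 3 / 5 * (x.θ * x.μ) := by ring
    rw [h2] at h1
    have h3 := hx.D2
    have h4 : (x.M : ℝ) ≤ x.B := by
      have : x.M ≤ x.B := by
        unfold Prm.B
        omega
      exact_mod_cast this
    have h5 : (x.M : ℝ) / x.D ≤ x.η * x.θ * x.μ := by
      rw [div_le_iff₀ hD]
      have h6 : (0 : ℝ) ≤ x.M := by positivity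
      nlinarith
    rw [add_div]
    linarith

/-- the normalised service on the classes -/
noncomputable def UU (x : Prm) (τ : Bool) (a β : ℕ) : ℝ :=
  x.fr τ a β * ((ln x.st β : ℝ) / x.D - if x.adj a β then 0 else x.μ) / x.Tt τ a

/-- the cuts -/
noncomputable def ZC (x : Prm) (a : ℕ) : Finset ℕ :=
  {a - x.K, a + x.K + 1, a + 1, x.Kh, x.b0, x.b1, x.B - x.Kh, x.B - 1}

theorem ZC_card (x : Prm) (a : ℕ) : ((ZC x a).card : ℝ) ≤ 8 := by
  have h : (ZC x a).card ≤ 8 := by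
    unfold ZC
    refine (Finset.card_insert_le _ _).trans ?_
    refine Nat.succ_le_succ ?_
    refine (Finset.card_insert_le _ _).trans ?_
    refine Nat.succ_le_succ ?_
    refine (Finset.card_insert_le _ _).trans ?_
    refine Nat.succ_le_succ ?_
    refine (Finset.card_insert_le _ _).trans ?_
    refine Nat.succ_le_succ ?_
    exact Finset.card_le_four
  exact_mod_cast h

theorem ln_const (hBLK : S_BLK) (x : Prm) (hx : Par x) (a β : ℕ) (h0 : 0 < β) (hB : β < x.B)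
    (hZ : β ∉ ZC x a) : ln x.st β = ln x.st (β - 1) := by
  obtain ⟨-, -, -, -, z1, z2, z3, z4, z5, -, -⟩ := hBLK x hx
  unfold ZC at hZ
  simp only [mem_insert, mem_singleton, not_or] at hZ
  obtain ⟨-, -, -, h4, h5, h6, h7, h8⟩ := hZ
  have e1 : x.Kh ≤ x.b0 := by
    have := hx.KhK
    unfold Prm.b0
    omega
  have e2 : x.b0 ≤ x.b1 := by
    unfold Prm.b0 Prm.b1
    omega
  have e3 : x.b1 + x.Kh ≤ x.B := by
    have := hx.KhK
    unfold Prm.b1 Prm.B
    omega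
  rcases Nat.lt_or_ge β x.Kh with g1 | g1
  · rw [z1 β g1, z1 (β - 1) (by omega)]
  · rcases Nat.lt_or_ge β x.b0 with g2 | g2
    · rw [z2 β g1 g2, z2 (β - 1) (by omega) (by omega)]
    · rcases Nat.lt_or_ge β x.b1 with g3 | g3
      · rw [z3 β g2 g3, z3 (β - 1) (by omega) (by omega)]
      · rcases Nat.lt_or_ge (β + x.Kh) x.B with g4 | g4
        · rw [z4 β g3 g4, z4 (β - 1) (by omega) (by omega)]
        · rw [z5 β g4 (by omega), z5 (β - 1) (by omega) (by omega)]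

theorem UU_const (hBLK : S_BLK) (x : Prm) (hx : Par x) (τ : Bool) (a : ℕ) (ha : a ∈ x.R) (β : ℕ)
    (h0 : 0 < β) (hB : β < x.B) (hZ : β ∉ ZC x a) : UU x τ a β = UU x τ a (β - 1) := by
  have h1 := ln_const hBLK x hx a β h0 hB hZ
  unfold ZC at hZ
  simp only [mem_insert, mem_singleton, not_or] at hZ
  obtain ⟨h2, h3, h4, h5, h6, h7, h8, h9⟩ := hZ
  have ha1 : x.K + 1 ≤ a := by
    unfold Prm.R at ha
    exact (Finset.mem_Icc.mp ha).1
  have g1 : x.adj a (β - 1) ↔ x.adj a β := by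
    unfold Prm.adj
    omega
  have g2 : (a < β - 1) ↔ (a < β) := by omega
  have g3 : (β - 1 < x.b0) ↔ (β < x.b0) := by omega
  have g4 : (x.b1 ≤ β - 1) ↔ (x.b1 ≤ β) := by omega
  have g5 : x.gA (x.lam a) a β = x.gA (x.lam a) a (β - 1) := by
    unfold Prm.gA
    simp only [g1, g2, g3, g4]
  unfold UU Prm.fr
  rw [g5, h1]
  simp only [g1]

theorem UU_bound (hBLK : S_BLK) (hTTB : S_TTB) (hLAM : S_LAM) (x : Prm) (hx : Par x) (τ : Bool)
    (a : ℕ) (ha : a ∈ x.R) (β : ℕ) (hB : β < x.B) :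
    0 ≤ UU x τ a β ∧ UU x τ a β ≤ 5 * x.μ / x.θ := by
  obtain ⟨hμ, hθ, hL, -, hη, hθ', hw, hv, -⟩ := basics x hx
  obtain ⟨-, -, -, -, -, -, -, -, -, -, zl⟩ := hBLK x hx
  have hD : (0 : ℝ) < x.D := by exact_mod_cast hx.D1
  have hT := (hTTB x hx a ha τ).1
  have hT2 : 49 / 100 * x.θ ≤ x.Tt τ a := by
    have h1 : 1 / (100 * (x.L : ℝ)) ≤ 1 / 100 := by
      refine div_le_div_of_nonneg_left zero_le_one (by norm_num) (by linarith)
    have h2 : (1 / 2 - 1 / (100 * (x.L : ℝ))) * x.θ ≥ (1 / 2 - 1 / 100) * x.θ :=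
      mul_le_mul_of_nonneg_right (by linarith) hθ.le
    linarith
  have hT0 : 0 < x.Tt τ a := by linarith
  have hgA : 0 ≤ x.gA (x.lam a) a β ∧ x.gA (x.lam a) a β ≤ 1 := by
    unfold Prm.gA
    split_ifs with i1 i2 i3 i4 i5 i6
    · norm_num
    · norm_num
    · norm_num
    · norm_num
    · have := hLAM x hx a ha i1
      exact ⟨this.1, this.2.1⟩
    · norm_num
    · norm_num
  have hfr : 0 ≤ x.fr τ a β ∧ x.fr τ a β ≤ 1 := by
    unfold Prm.fr
    split_ifs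
    · exact hgA
    · constructor <;> linarith [hgA.1, hgA.2]
  have hln := zl β hB
  have h2 : 0 ≤ (ln x.st β : ℝ) / x.D - (if x.adj a β then 0 else x.μ) ∧
      (ln x.st β : ℝ) / x.D - (if x.adj a β then 0 else x.μ) ≤ 2 * x.μ := by
    have h3 : (x.w2 : ℝ) / x.D ≤ (ln x.st β : ℝ) / x.D := by
      refine div_le_div_of_nonneg_right ?_ hD.le
      exact_mod_cast hln.1
    have h4 : (ln x.st β : ℝ) / x.D ≤ ((x.v : ℝ) + x.M) / x.D := by
      refine div_le_div_of_nonneg_right ?_ hD.le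
      exact_mod_cast hln.2
    split_ifs <;> constructor <;> linarith
  unfold UU
  refine ⟨div_nonneg (mul_nonneg hfr.1 h2.1) hT0.le, ?_⟩
  rw [div_le_div_iff₀ hT0 hθ]
  have h3 : x.fr τ a β * ((ln x.st β : ℝ) / x.D - (if x.adj a β then 0 else x.μ)) ≤
      1 * (2 * x.μ) := mul_le_mul hfr.2 h2.2 h2.1 (by norm_num)
  have h4 := mul_le_mul_of_nonneg_right h3 hθ.le
  have h5 := mul_le_mul_of_nonneg_left hT2 (show 0 ≤ 5 * x.μ by positivity)
  have h6 : 0 ≤ x.μ * x.θ := by positivity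
  linarith

theorem part_bound (hPER : Pool.Agent.H39.HW.Sc.S_PER) (hBLK : S_BLK) (hTTB : S_TTB)
    (hLAM : S_LAM) (x : Prm) (hx : Par x) (τ : Bool)
    (a : ℕ) (ha : a ∈ x.R) (g : ℕ → ℝ) (hg : ∀ i, |g i| ≤ 1) (hgL : ∑ i ∈ range x.L, g i = 0)
    (y z : ℕ) (hz : z ≤ x.B) :
    |∑ β ∈ Finset.Ico y z, g (β % x.L) * UU x τ a β| ≤ 90 * x.L * x.μ / x.θ := by
  obtain ⟨hμ, hθ, hL, hLn, -, -, -, -, -⟩ := basics x hx
  rcases le_or_gt y z with hyz | hyz
  · have hper : ∀ z, y ≤ z → |∑ β ∈ Finset.Ico y z, g (β % x.L)| ≤ 2 * 1 * x.L := by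
      intro z _
      have h1 := hPER x.L 0 1 g hLn zero_le_one hgL hg y z (Nat.zero_le _)
      simpa using h1
    have hM : (0 : ℝ) ≤ 2 * 1 * x.L := by positivity
    have hC : (0 : ℝ) ≤ 5 * x.μ / x.θ := by positivity
    have h1 := abel (fun β => g (β % x.L)) (UU x τ a) y (2 * 1 * x.L) (5 * x.μ / x.θ) hM hC
      (ZC x a) hper z hyz
      (fun β _ h2 => UU_bound hBLK hTTB hLAM x hx τ a ha β (lt_of_lt_of_le h2 hz))
      (fun β h1 h2 h3 => UU_const hBLK x hx τ a ha β (by omega) (lt_of_lt_of_le h2 hz) h3)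
    refine h1.trans ?_
    have h2 : (2 * 1 * x.L * (5 * x.μ / x.θ)) * (1 + 8) = 90 * x.L * x.μ / x.θ := by ring
    rw [← h2]
    exact mul_le_mul_of_nonneg_left (by linarith [ZC_card x a]) (mul_nonneg hM hC)
  · rw [Finset.Ico_eq_empty_of_le hyz.le, sum_empty, abs_zero]
    positivity

/-- the sum over a window and an interval of positions -/
theorem win_bound (hPER : Pool.Agent.H39.HW.Sc.S_PER) (hBLK : S_BLK) (hTTB : S_TTB)
    (hLAM : S_LAM) (x : Prm) (hx : Par x) (τ : Bool) (a : ℕ) (ha : a ∈ x.R) (f : ℕ → ℝ)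
    (hf : ∀ i, |f i| ≤ 1) (l r : ℕ) (hr : r ≤ x.L) (hs : ∑ i ∈ Finset.Ico l r, f i = 0)
    (w : ℕ) (hw : (w + 1) * x.W ≤ x.B) :
    |∑ β ∈ range x.B, (if β / x.W = w ∧ l ≤ β % x.L ∧ β % x.L < r then
      f (β % x.L) * UU x τ a β else 0)| ≤ 90 * x.L * x.μ / x.θ := by
  obtain ⟨hμ, hθ, hL, hLn, -, -, -, -, -⟩ := basics x hx
  let g : ℕ → ℝ := fun i => if l ≤ i ∧ i < r then f i else 0
  have hg : ∀ i, |g i| ≤ 1 := by
    intro i
    show |if l ≤ i ∧ i < r then f i else 0| ≤ 1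
    split_ifs
    · exact hf i
    · rw [abs_zero]
      exact zero_le_one
  have hgL : ∑ i ∈ range x.L, g i = 0 := by
    have h1 : Finset.Ico l r ⊆ range x.L := by
      intro i hi
      rw [Finset.mem_Ico] at hi
      rw [mem_range]
      omega
    rw [← Finset.sum_subset h1]
    · rw [← hs]
      refine Finset.sum_congr rfl fun i hi => ?_
      show (if l ≤ i ∧ i < r then f i else 0) = f i
      rw [if_pos (Finset.mem_Ico.mp hi)]
    · intro i _ hi
      show (if l ≤ i ∧ i < r then f i else 0) = 0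
      rw [if_neg (fun h2 => hi (Finset.mem_Ico.mpr h2))]
  have hWpos : 0 < x.W := by
    unfold Prm.W
    exact Nat.mul_pos hLn hx.q1
  have h1 := part_bound hPER hBLK hTTB hLAM x hx τ a ha g hg hgL (w * x.W) ((w + 1) * x.W) hw
  have h2 : ∑ β ∈ range x.B, (if β / x.W = w ∧ l ≤ β % x.L ∧ β % x.L < r then
      f (β % x.L) * UU x τ a β else 0) =
      ∑ β ∈ Finset.Ico (w * x.W) ((w + 1) * x.W), g (β % x.L) * UU x τ a β := by
    have h3 : Finset.Ico (w * x.W) ((w + 1) * x.W) ⊆ range x.B := by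
      intro β hβ
      rw [Finset.mem_Ico] at hβ
      rw [mem_range]
      omega
    have hdiv : ∀ β, (β / x.W = w ↔ β ∈ Finset.Ico (w * x.W) ((w + 1) * x.W)) := by
      intro β
      rw [Finset.mem_Ico, Nat.div_eq_iff hWpos]
      constructor
      · rintro ⟨h4, h5⟩
        rw [add_mul, one_mul]
        omega
      · rintro ⟨h4, h5⟩
        rw [add_mul, one_mul] at h5
        omega
    symm
    refine Finset.sum_subset_zero_on_sdiff h3 ?_ ?_
    · intro β hβ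
      rw [mem_sdiff] at hβ
      rw [if_neg (fun h5 => hβ.2 ((hdiv β).mp h5.1))]
    · intro β hβ
      have h5 := (hdiv β).mpr hβ
      show (if l ≤ β % x.L ∧ β % x.L < r then f (β % x.L) else 0) * UU x τ a β = _
      by_cases h6 : l ≤ β % x.L ∧ β % x.L < r
      · rw [if_pos h6, if_pos ⟨h5, h6⟩]
      · rw [if_neg h6, if_neg (fun h7 => h6 h7.2), zero_mul]
  rw [h2]
  exact h1

theorem t_SHR (hPER : Pool.Agent.H39.HW.Sc.S_PER) (hPAT : S_PAT) (hROW : S_ROW) (hCLD : S_CLD)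
    (hWIN : S_WIN) (hBLK : S_BLK) (hTTB : S_TTB) (hLAM : S_LAM) : S_SHR := by
  intro x hx P hP a ha
  obtain ⟨hμ, hθ, hL, hLn, -, -, -, -, hh⟩ := basics x hx
  have hstm := (hBLK x hx).2.2.1
  obtain ⟨pw, -, pL, p1, p2, -⟩ := hPAT x hx P hP
  obtain ⟨hu0, hu5, husum, -, -, -⟩ := hROW x hx a ha (x.tp P)
  obtain ⟨hcls, -, -, hdadj, hdnadj, -, -⟩ := hCLD x hx a ha
  have hwin := hWIN x hx a ha
  set τ := x.tp P with hτ
  let f : ℕ → ℝ := fun i => x.wt P i - 1
  have hf1 : ∀ i, |f i| ≤ 1 := by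
    intro i
    have h1 := pw i
    have h2 : 3 / (x.h : ℝ) ≤ 1 := by
      rw [div_le_one (by linarith)]
      linarith
    rw [abs_le]
    constructor
    · show -1 ≤ x.wt P i - 1
      linarith [h1.1]
    · show x.wt P i - 1 ≤ 1
      linarith [h1.2]
  have hfL : ∑ i ∈ range x.L, f i = 0 := by
    show ∑ i ∈ range x.L, (x.wt P i - 1) = 0
    rw [Finset.sum_sub_distrib, pL, Finset.sum_const, card_range, nsmul_eq_mul, mul_one, sub_self]
  have hf2 : ∑ i ∈ Finset.Ico (4 * x.h ^ 2) (4 * x.h ^ 2 + x.h), f i = 0 := by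
    show ∑ i ∈ Finset.Ico (4 * x.h ^ 2) (4 * x.h ^ 2 + x.h), (x.wt P i - 1) = 0
    rw [Finset.sum_sub_distrib, p1, Finset.sum_const, Nat.card_Ico, nsmul_eq_mul, mul_one,
      Nat.add_sub_cancel_left, sub_self]
  have hf3 : ∑ i ∈ Finset.Ico (4 * x.h ^ 2 + x.h) (4 * x.h ^ 2 + 2 * x.h), f i = 0 := by
    show ∑ i ∈ Finset.Ico (4 * x.h ^ 2 + x.h) (4 * x.h ^ 2 + 2 * x.h), (x.wt P i - 1) = 0
    have h1 : 4 * x.h ^ 2 + 2 * x.h - (4 * x.h ^ 2 + x.h) = x.h := by omega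
    rw [Finset.sum_sub_distrib, p2, Finset.sum_const, Nat.card_Ico, nsmul_eq_mul, mul_one, h1,
      sub_self]
  have step0 : x.rs P a - 1 = ∑ β ∈ range x.B, f (β % x.L) * x.u τ a β := by
    have h2 : ∑ β ∈ range x.B, f (β % x.L) * x.u τ a β =
        ∑ β ∈ range x.B, x.wt P (β % x.L) * x.u τ a β - ∑ β ∈ range x.B, x.u τ a β := by
      rw [← Finset.sum_sub_distrib]
      refine Finset.sum_congr rfl fun β _ => ?_
      show (x.wt P (β % x.L) - 1) * x.u τ a β = _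
      ring
    rw [h2, husum]
    rfl
  let r1 : ℕ → Prop := fun β => β / x.W = x.win true a ∧ 4 * x.h ^ 2 ≤ β % x.L ∧
    β % x.L < 4 * x.h ^ 2 + x.h
  let r2 : ℕ → Prop := fun β => β / x.W = x.win false a ∧ 4 * x.h ^ 2 + x.h ≤ β % x.L ∧
    β % x.L < 4 * x.h ^ 2 + 2 * x.h
  have hcls' : ∀ β ∈ range x.B,
      (β ∈ x.cls a ↔ Av x.st x.p a β ∧ β ≠ sm x.B a a ∧ ¬ r1 β ∧ ¬ r2 β) := by
    intro β hβ
    rw [hcls β]
    have h1 := mem_range.mp hβ
    constructor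
    · rintro ⟨-, h2, h3, h4, h5⟩
      exact ⟨h2, h3, h4, h5⟩
    · rintro ⟨h2, h3, h4, h5⟩
      exact ⟨h1, h2, h3, h4, h5⟩
  have huU : ∀ β, x.u τ a β = if β ∈ x.cls a then UU x τ a β else 0 := by
    intro β
    unfold Prm.u
    by_cases h1 : β ∈ x.cls a
    · rw [if_pos h1, if_pos h1]
      unfold UU
      by_cases h4 : x.adj a β
      · rw [hdadj β h1 h4, if_pos h4, sub_zero]
      · rw [hdnadj β h1 h4, if_neg h4]
    · rw [if_neg h1, if_neg h1]
  have hpt : ∀ β ∈ range x.B, f (β % x.L) * x.u τ a β =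
      (if Av x.st x.p a β then f (β % x.L) * UU x τ a β else 0) -
      (if r1 β then f (β % x.L) * UU x τ a β else 0) -
      (if r2 β then f (β % x.L) * UU x τ a β else 0) -
      (if Av x.st x.p a β ∧ ¬ r1 β ∧ ¬ r2 β ∧ β = sm x.B a a then
        f (β % x.L) * UU x τ a β else 0) := by
    intro β hβ
    rw [huU β]
    have h1 := hcls' β hβ
    have h12 : ¬ (r1 β ∧ r2 β) := by
      rintro ⟨⟨-, -, h3⟩, ⟨-, h4, -⟩⟩
      omega
    by_cases h2 : Av x.st x.p a β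
    · by_cases h3 : r1 β
      · have h4 : ¬ β ∈ x.cls a := fun h5 => (h1.mp h5).2.2.1 h3
        have h5 : ¬ r2 β := fun h6 => h12 ⟨h3, h6⟩
        rw [if_neg h4, if_pos h2, if_pos h3, if_neg h5, if_neg (fun h6 => h6.2.1 h3)]
        ring
      · by_cases h3' : r2 β
        · have h4 : ¬ β ∈ x.cls a := fun h5 => (h1.mp h5).2.2.2 h3'
          rw [if_neg h4, if_pos h2, if_neg h3, if_pos h3', if_neg (fun h6 => h6.2.2.1 h3')]
          ring
        · by_cases h5 : β = sm x.B a a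
          · have h4 : ¬ β ∈ x.cls a := fun h6 => ((h1.mp h6).2.1) h5
            rw [if_neg h4, if_pos h2, if_neg h3, if_neg h3', if_pos ⟨h2, h3, h3', h5⟩]
            ring
          · have h4 : β ∈ x.cls a := h1.mpr ⟨h2, h5, h3, h3'⟩
            rw [if_pos h4, if_pos h2, if_neg h3, if_neg h3', if_neg (fun h6 => h5 h6.2.2.2)]
            ring
    · have h3 : ¬ r1 β := fun h4 => h2 (((hwin true).1 β h4.1).2.1)
      have h3' : ¬ r2 β := fun h4 => h2 (((hwin false).1 β h4.1).2.1)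
      have h4 : ¬ β ∈ x.cls a := fun h5 => h2 (h1.mp h5).1
      rw [if_neg h4, if_neg h2, if_neg h3, if_neg h3', if_neg (fun h6 => h2 h6.1)]
      ring
  rw [step0, Finset.sum_congr rfl hpt, Finset.sum_sub_distrib, Finset.sum_sub_distrib,
    Finset.sum_sub_distrib]
  have hL1 : 4 * x.h ^ 2 + 2 * x.h ≤ x.L := by
    rw [hx.L1]
    nlinarith [Nat.zero_le (x.h ^ 2)]
  have hR1 := win_bound hPER hBLK hTTB hLAM x hx τ a ha f hf1 (4 * x.h ^ 2) (4 * x.h ^ 2 + x.h)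
    (by omega) hf2 (x.win true a) (hwin true).2.1
  have hR2 := win_bound hPER hBLK hTTB hLAM x hx τ a ha f hf1 (4 * x.h ^ 2 + x.h)
    (4 * x.h ^ 2 + 2 * x.h) hL1 hf3 (x.win false a) (hwin false).2.1
  have hR1' : |∑ β ∈ range x.B, (if r1 β then f (β % x.L) * UU x τ a β else 0)| ≤
      90 * x.L * x.μ / x.θ := hR1
  have hR2' : |∑ β ∈ range x.B, (if r2 β then f (β % x.L) * UU x τ a β else 0)| ≤
      90 * x.L * x.μ / x.θ := hR2
  -- the block `sm a a`
  have hS3 : |∑ β ∈ range x.B, (if Av x.st x.p a β ∧ ¬ r1 β ∧ ¬ r2 β ∧ β = sm x.B a a then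
        f (β % x.L) * UU x τ a β else 0)| ≤ 5 * x.μ / x.θ := by
    have h5 : 0 ≤ 5 * x.μ / x.θ := by positivity
    by_cases h1 : sm x.B a a ∈ range x.B
    · rw [Finset.sum_eq_single_of_mem _ h1 (fun β _ hβ => by
        rw [if_neg (fun h2 => hβ h2.2.2.2)])]
      split_ifs
      · rw [abs_mul]
        have h2 := UU_bound hBLK hTTB hLAM x hx τ a ha (sm x.B a a) (mem_range.mp h1)
        rw [abs_of_nonneg h2.1]
        calc _ ≤ 1 * (5 * x.μ / x.θ) := mul_le_mul (hf1 _) h2.2 h2.1 zero_le_one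
          _ = _ := one_mul _
      · rw [abs_zero]
        exact h5
    · rw [Finset.sum_eq_zero (fun β hβ => by
        rw [if_neg (fun h2 : Av x.st x.p a β ∧ ¬ r1 β ∧ ¬ r2 β ∧ β = sm x.B a a =>
          h1 (h2.2.2.2 ▸ hβ))]), abs_zero]
      exact h5
  -- the available blocks
  have hstmono : Monotone x.st := monotone_nat_of_le_succ hstm
  have haB : a < x.B := by
    unfold Prm.R at ha
    have h1 := (Finset.mem_Icc.mp ha).2
    have h2 := hx.J1
    unfold Prm.b1 at h1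
    unfold Prm.B
    omega
  have hp2 : 2 ≤ x.p := by
    have h1 := hx.g3
    omega
  have hS1 : |∑ β ∈ range x.B, (if Av x.st x.p a β then f (β % x.L) * UU x τ a β else 0)| ≤
      180 * x.L * x.μ / x.θ := by
    have hpart : ∀ y z : ℕ, z ≤ x.B →
        |∑ β ∈ Finset.Ico y z, f (β % x.L) * UU x τ a β| ≤ 90 * x.L * x.μ / x.θ :=
      fun y z hz => part_bound hPER hBLK hTTB hLAM x hx τ a ha f hf1 hfL y z hz
    rw [← Finset.sum_filter]
    have hsplit : (range x.B).filter (fun β => Av x.st x.p a β) =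
        (Finset.Ico 0 a).filter (fun β => Av x.st x.p a β) ∪
        (Finset.Ico a x.B).filter (fun β => Av x.st x.p a β) := by
      ext β
      simp only [mem_filter, mem_range, mem_union, Finset.mem_Ico]
      constructor
      · rintro ⟨h2, h3⟩
        rcases Nat.lt_or_ge β a with h4 | h4
        · exact Or.inl ⟨⟨Nat.zero_le _, h4⟩, h3⟩
        · exact Or.inr ⟨⟨h4, h2⟩, h3⟩
      · rintro (⟨⟨-, h4⟩, h3⟩ | ⟨⟨h4, h2⟩, h3⟩)
        · exact ⟨h4.trans haB, h3⟩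
        · exact ⟨h2, h3⟩
    have hdisj : Disjoint ((Finset.Ico 0 a).filter (fun β => Av x.st x.p a β))
        ((Finset.Ico a x.B).filter (fun β => Av x.st x.p a β)) := by
      rw [Finset.disjoint_left]
      intro β h1 h2
      simp only [mem_filter, Finset.mem_Ico] at h1 h2
      omega
    rw [hsplit, Finset.sum_union hdisj]
    obtain ⟨i1, hi1, hi1'⟩ := down_Ico (fun β => Av x.st x.p a β) 0 a (by
      intro n _ hn1 hAv
      have h1 := hstmono (show n + 1 ≤ a by omega)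
      have h2 := hstmono (show n + 1 + 1 ≤ a + 1 by omega)
      have h3 := hstmono (show n + 1 ≤ n + 1 + 1 by omega)
      have h4 := hstmono (show a ≤ a + 1 by omega)
      rcases hAv with hAv | hAv
      · omega
      · right
        omega)
    obtain ⟨i2, hi2, hi2'⟩ := up_Ico (fun β => Av x.st x.p a β) a x.B (by
      intro n hn hAv
      have h1 := hstmono (show a ≤ n by omega)
      have h3 := hstmono (show n ≤ n + 1 by omega)
      rcases hAv with hAv | hAv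
      · left
        omega
      · omega)
    rw [hi1', hi2']
    have b1 := hpart 0 i1 (by
      have : i1 ≤ a := by simpa using hi1
      omega)
    have b2 := hpart i2 x.B (le_refl _)
    refine (abs_add_le _ _).trans ?_
    have e2 : 180 * x.L * x.μ / x.θ = 90 * x.L * x.μ / x.θ + 90 * x.L * x.μ / x.θ := by ring
    rw [e2]
    exact add_le_add b1 b2
  have h1 : 5 * x.μ / x.θ ≤ 5 * x.L * x.μ / x.θ := by
    refine div_le_div_of_nonneg_right ?_ hθ.le
    nlinarith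
  have e3 : 1000 * x.L * x.μ / x.θ = 180 * x.L * x.μ / x.θ + 90 * x.L * x.μ / x.θ +
      90 * x.L * x.μ / x.θ + 5 * x.L * x.μ / x.θ + 635 * x.L * x.μ / x.θ := by ring
  have e4 : 0 ≤ 635 * x.L * x.μ / x.θ := by positivity
  rw [e3]
  refine (abs_sub _ _).trans ?_
  have k1 := abs_sub
    (∑ β ∈ range x.B, (if Av x.st x.p a β then f (β % x.L) * UU x τ a β else 0) -
      ∑ β ∈ range x.B, (if r1 β then f (β % x.L) * UU x τ a β else 0))
    (∑ β ∈ range x.B, (if r2 β then f (β % x.L) * UU x τ a β else 0))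
  have k2 := abs_sub
    (∑ β ∈ range x.B, (if Av x.st x.p a β then f (β % x.L) * UU x τ a β else 0))
    (∑ β ∈ range x.B, (if r1 β then f (β % x.L) * UU x τ a β else 0))
  linarith

end Pool.Agent.H7.HX.Shr
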