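import Pool.Agent.H7.HX.SShr

/-!
Parts sSRB and sCOL of project HX, scheme side: the reserved labels and the column sums.
-/

set_option autoImplicit false
open Classical Finset

namespace Pool.Agent.H7.HX.Srb

open Pool.Agent.H39.HW (sm Av ln blk lab)
open Pool.Agent.H65.HX Pool.Agent.H65.HX.Sc
open Pool.Agent.H7.HX.Shr (basics)

theorem card_lab {st : ℕ → ℕ} (h : ∀ β, st β ≤ st (β + 1)) (T : Finset ℕ) :
    (lab st T).card = ∑ β ∈ T, ln st β := by
  have hm : Monotone st := monotone_nat_of_le_succ h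
  unfold lab
  rw [Finset.card_biUnion]
  · refine Finset.sum_congr rfl fun β _ => ?_
    unfold blk ln
    rw [Nat.card_Ico]
  · intro i _ j _ hij
    show Disjoint (blk st i) (blk st j)
    rw [Finset.disjoint_left]
    intro n hn hn'
    unfold blk at hn hn'
    rw [Finset.mem_Ico] at hn hn'
    rcases lt_or_gt_of_ne hij with h1 | h1
    · have := hm (show i + 1 ≤ j by omega)
      omega
    · have := hm (show j + 1 ≤ i by omega)
      omega

theorem t_SRB (hWIN : S_WIN) (hBLK : S_BLK) : S_SRB := by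
  intro x hx a ha
  obtain ⟨hμ, hθ, hL, hLn, hη, hθ', hw, hv, hh⟩ := basics x hx
  obtain ⟨-, -, hst, -, -, -, -, -, -, -, zl⟩ := hBLK x hx
  have hwin := hWIN x hx a ha true
  have hwinf := hWIN x hx a ha false
  have hD : (0 : ℝ) < x.D := by exact_mod_cast hx.D1
  have hη0 := hx.n1
  have hLh : (0 : ℝ) < x.L * x.h := by positivity
  have hh0 : (0 : ℝ) < x.h := by linarith
  have hL0 : (0 : ℝ) < x.L := by linarith
  set X : ℝ := x.q * ((x.w2 : ℝ) / x.D) with hX
  set Y : ℝ := x.q * (((x.v : ℝ) + x.M) / x.D) with hY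
  -- bounds of the labels of a part
  have hcard : ∀ P < 2 * x.h, X ≤ ((lab x.st (x.S P a)).card : ℝ) / x.D ∧
      ((lab x.st (x.S P a)).card : ℝ) / x.D ≤ Y := by
    intro P hP
    have hS : (x.S P a).card = x.q := hwin.2.2.1 P hP
    have hB : ∀ β ∈ x.S P a, β < x.B := by
      intro β hβ
      unfold Prm.S at hβ
      exact mem_range.mp (mem_filter.mp hβ).1
    rw [card_lab hst]
    push_cast
    have h1 : (x.q : ℝ) * x.w2 ≤ ∑ β ∈ x.S P a, (ln x.st β : ℝ) := by
      rw [← hS, ← nsmul_eq_mul]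
      refine Finset.card_nsmul_le_sum _ _ _ fun β hβ => ?_
      exact_mod_cast (zl β (hB β hβ)).1
    have h2 : ∑ β ∈ x.S P a, (ln x.st β : ℝ) ≤ (x.q : ℝ) * (x.v + x.M) := by
      rw [← hS, ← nsmul_eq_mul]
      refine Finset.sum_le_card_nsmul _ _ _ fun β hβ => ?_
      exact_mod_cast (zl β (hB β hβ)).2
    constructor
    · rw [hX, ← mul_div_assoc]
      exact div_le_div_of_nonneg_right h1 hD.le
    · rw [hY, ← mul_div_assoc]
      exact div_le_div_of_nonneg_right h2 hD.le
  have hMD : (x.M : ℝ) / x.D ≤ 1 / 10 ^ 9 * (x.η * x.θ * x.μ) := by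
    have h3 := hx.D2
    have h4 : (x.M : ℝ) ≤ x.B := by
      have : x.M ≤ x.B := by
        unfold Prm.B
        omega
      exact_mod_cast this
    rw [div_le_iff₀ hD]
    nlinarith
  have hθμ : 0 < x.θ * x.μ := by positivity
  have hηθμ : x.η * x.θ * x.μ ≤ 1 / 10 ^ 10 * (x.θ * x.μ) := by
    rw [mul_assoc]
    exact mul_le_mul_of_nonneg_right hη hθμ.le
  have hηθμ0 : 0 ≤ x.η * x.θ * x.μ := by positivity
  have hθμ1 : x.θ * x.μ ≤ 1 / 10 ^ 10 * x.μ := mul_le_mul_of_nonneg_right hθ' hμ.le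
  have hs2 := abs_le.mp hx.s2
  have hs3 := abs_le.mp hx.s3
  have hvμ : x.μ ≤ (x.v : ℝ) / x.D := by
    have h2 : 3 / 5 * x.θ * x.μ = 3 / 5 * (x.θ * x.μ) := by ring
    rw [h2] at hs3
    linarith [hs3.1]
  have hq0 : (0 : ℝ) ≤ x.q := by positivity
  -- X from below
  have hX1 : x.θ / (200 * x.L * x.h) ≤ X := by
    have h1 := hx.q2
    have h2 : x.θ / (200 * x.L * x.h) = x.θ / (200 * x.L) / x.h := by
      rw [div_div]
    rw [h2, div_le_iff₀ hh0]
    calc _ ≤ x.h * x.q * ((x.w2 : ℝ) / x.D) := h1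
      _ = X * x.h := by rw [hX]; ring
  -- q v / D
  have hqv : x.q * ((x.v : ℝ) / x.D) ≤ x.θ / (120 * x.L * x.h) := by
    have h1 := hx.q3
    have h2 : x.θ / (120 * x.L * x.h) = x.θ / (120 * x.L) / x.h := by
      rw [div_div]
    rw [h2, le_div_iff₀ hh0]
    calc x.q * ((x.v : ℝ) / x.D) * x.h = x.h * x.q * ((x.v : ℝ) / x.D) := by ring
      _ ≤ _ := h1
  have hqμ : x.q * x.μ ≤ x.θ / (120 * x.L * x.h) :=
    (mul_le_mul_of_nonneg_left hvμ hq0).trans hqv
  have hT0 : 0 < x.θ / (120 * x.L * x.h) := by positivity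
  have hqM : x.q * ((x.M : ℝ) / x.D) ≤ 1 / 10 ^ 9 * (x.η * x.θ) * (x.θ / (120 * x.L * x.h)) := by
    have h1 := mul_le_mul_of_nonneg_left hMD hq0
    have h2 : (x.q : ℝ) * (1 / 10 ^ 9 * (x.η * x.θ * x.μ)) =
        1 / 10 ^ 9 * (x.η * x.θ) * (x.q * x.μ) := by ring
    rw [h2] at h1
    exact h1.trans (mul_le_mul_of_nonneg_left hqμ (by positivity))
  have hηθ : x.η * x.θ ≤ 1 := by nlinarith
  have hY1 : Y ≤ x.θ / (119 * x.L * x.h) := by
    have h1 : Y = x.q * ((x.v : ℝ) / x.D) + x.q * ((x.M : ℝ) / x.D) := by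
      rw [hY, add_div, mul_add]
    rw [h1]
    have h2 : 1 / 10 ^ 9 * (x.η * x.θ) * (x.θ / (120 * x.L * x.h)) ≤
        1 / 10 ^ 9 * 1 * (x.θ / (120 * x.L * x.h)) :=
      mul_le_mul_of_nonneg_right (mul_le_mul_of_nonneg_left hηθ (by norm_num)) hT0.le
    have h3 : x.θ / (119 * x.L * x.h) = 120 / 119 * (x.θ / (120 * x.L * x.h)) := by
      field_simp
    rw [h3]
    linarith
  have hXY : Y - X ≤ x.η * x.θ / (100 * x.L * x.h) := by
    have h1 : Y - X = x.q * (((x.v : ℝ) / x.D) - ((x.w2 : ℝ) / x.D)) + x.q * ((x.M : ℝ) / x.D) := by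
      rw [hY, hX, add_div]
      ring
    have h2 : ((x.v : ℝ) / x.D) - ((x.w2 : ℝ) / x.D) ≤ 46 / 100 * (x.θ * x.μ) := by
      have e1 : 3 / 5 * x.θ * x.μ = 3 / 5 * (x.θ * x.μ) := by ring
      have e2 : 3 / 20 * x.θ * x.μ = 3 / 20 * (x.θ * x.μ) := by ring
      rw [e1] at hs3
      rw [e2] at hs2
      linarith [hs3.2, hs2.1]
    have h3 := mul_le_mul_of_nonneg_left h2 hq0
    have h4 : (x.q : ℝ) * (46 / 100 * (x.θ * x.μ)) = 46 / 100 * x.θ * (x.q * x.μ) := by ring
    have h5 : 46 / 100 * x.θ * (x.q * x.μ) ≤ 46 / 100 * x.η * (x.θ / (120 * x.L * x.h)) :=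
      mul_le_mul (by linarith [hx.th]) hqμ (by positivity) (by positivity)
    have h6 : x.η * x.θ / (100 * x.L * x.h) = 120 / 100 * (x.η * (x.θ / (120 * x.L * x.h))) := by
      field_simp
    have h7 : 1 / 10 ^ 9 * (x.η * x.θ) * (x.θ / (120 * x.L * x.h)) ≤
        1 / 10 ^ 9 * (x.η * 1) * (x.θ / (120 * x.L * x.h)) :=
      mul_le_mul_of_nonneg_right (mul_le_mul_of_nonneg_left
        (mul_le_mul_of_nonneg_left (by linarith) hη0.le) (by norm_num)) hT0.le
    have h8 : 0 ≤ x.η * (x.θ / (120 * x.L * x.h)) := by positivity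
    rw [h1, h6]
    rw [h4] at h3
    linarith
  -- the sums
  have hfc : ∀ τ : Bool, ((range (2 * x.h)).filter (fun P => x.tp P = τ)).card = x.h := by
    intro τ
    cases τ with
    | true =>
      have : (range (2 * x.h)).filter (fun P => x.tp P = true) = range x.h := by
        ext P
        simp only [mem_filter, mem_range, Prm.tp, decide_eq_true_eq]
        omega
      rw [this, card_range]
    | false =>
      have : (range (2 * x.h)).filter (fun P => x.tp P = false) = Finset.Ico x.h (2 * x.h) := by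
        ext P
        simp only [mem_filter, mem_range, Prm.tp, decide_eq_false_iff_not, Finset.mem_Ico]
        omega
      rw [this, Nat.card_Ico]
      omega
  have hsr : ∀ τ : Bool, x.h * X ≤ x.sr τ a ∧ x.sr τ a ≤ x.h * Y := by
    intro τ
    unfold Prm.sr
    constructor
    · have h1 := Finset.card_nsmul_le_sum ((range (2 * x.h)).filter (fun P => x.tp P = τ))
        (fun P => ((lab x.st (x.S P a)).card : ℝ) / x.D) X
        (fun P hP => (hcard P (mem_range.mp (mem_filter.mp hP).1)).1)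
      rwa [hfc τ, nsmul_eq_mul] at h1
    · have h1 := Finset.sum_le_card_nsmul ((range (2 * x.h)).filter (fun P => x.tp P = τ))
        (fun P => ((lab x.st (x.S P a)).card : ℝ) / x.D) Y
        (fun P hP => (hcard P (mem_range.mp (mem_filter.mp hP).1)).2)
      rwa [hfc τ, nsmul_eq_mul] at h1
  refine ⟨fun P hP => ⟨hX1.trans (hcard P hP).1, (hcard P hP).2.trans hY1⟩, ?_, ?_⟩
  · intro P hP Q hQ
    have h1 := hcard P hP
    have h2 := hcard Q hQ
    rw [abs_le]
    constructor <;> linarith [h1.1, h1.2, h2.1, h2.2]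
  · intro τ
    have h1 := hsr τ
    have h2 := hsr (!τ)
    refine ⟨?_, ?_, ?_, ?_⟩
    · have h3 := mul_le_mul_of_nonneg_left hX1 hh0.le
      have h4 : (x.h : ℝ) * (x.θ / (200 * x.L * x.h)) = x.θ / (200 * x.L) := by
        field_simp
      rw [h4] at h3
      exact h3.trans h1.1
    · have h3 := mul_le_mul_of_nonneg_left hY1 hh0.le
      have h4 : (x.h : ℝ) * (x.θ / (119 * x.L * x.h)) = x.θ / (119 * x.L) := by
        field_simp
      rw [h4] at h3
      exact h1.2.trans h3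
    · have h3 := mul_le_mul_of_nonneg_left hXY hh0.le
      have h4 : (x.h : ℝ) * (x.η * x.θ / (100 * x.L * x.h)) = x.η * x.θ / (100 * x.L) := by
        field_simp
      rw [h4, mul_sub] at h3
      rw [abs_le]
      constructor <;> linarith [h1.1, h1.2, h2.1, h2.2]
    · intro P hP
      have h3 := hcard P hP
      have h4 : X ≤ x.sr τ a / x.h := by
        rw [le_div_iff₀ hh0]
        linarith [h1.1]
      have h5 : x.sr τ a / x.h ≤ Y := by
        rw [div_le_iff₀ hh0]
        linarith [h1.2]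
      rw [abs_le]
      constructor <;> linarith [h3.1, h3.2]

end Pool.Agent.H7.HX.Srb
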